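import Pool.Agent.H35.L1B.Ctx

/-!
# The abstract core

`acore`: the coefficients of the own shape are polynomials of degree `n` in the time, for most
samples of the whole law; the coefficients of these polynomials are functions of the line.
-/

set_option autoImplicit false

namespace Pool.L1B

open Finset Real
open Pool.Agent.H49.Ent Pool.Agent.H32.Dense Pool.STK Pool.KAF Pool.M5 Pool.SLO

variable {k n K : ℕ}

namespace CDat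

/-- The event of bad nodes or of a bad sample. -/
def Bad (d : CDat k n K) (k₀ : ℕ) (κ₂ : ℝ) : Set ((Fin (n + 1) → d.Om) × d.Om) :=
  {u | (∃ j j', j ≠ j' ∧ |d.th (u.1 j) - d.th (u.1 j')| < (2 : ℝ) ^ (-(k₀ : ℤ))) ∨
    ∃ i : Mon k K, (2 : ℝ) ^ (-(κ₂ * d.X)) < |(d.sh u.2 i : ℝ) / 2 ^ d.X -
      (Lagrange.interpolate univ (fun j => d.th (u.1 j))
        (fun j => (d.sh (u.1 j) i : ℝ) / 2 ^ d.X)).eval (d.th u.2)|}

theorem ld_Q1 (d : CDat k n K) (p' : d.Om → ℝ) : (d.ld p').Q1 = q1 p' d.L n := by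
  classical
  have h1 : (d.ld p').Qr = tup p' d.L n :=
    funext fun v : Fin (n + 1) → d.Om => (tup_eq p' d.L n v).symm
  unfold LDat.Q1 q1
  rw [h1]
  rfl

/-- **From the contexts to the whole law.** -/
theorem mix_thm {d : CDat k n K} {E B : ℝ} (hd : d.OK E B) (k₀ : ℕ) {κ₂ ε : ℝ} (hε : 0 ≤ ε)
    (bad : Set (d.Bx × Prop))
    (h : ∀ z, 0 < law d.p d.gx z → z ∉ bad →
      Pr (d.ld (Pool.Agent.H49.Ent.cond d.p d.gx z)).Q1
        {u | ¬ (d.ld (Pool.Agent.H49.Ent.cond d.p d.gx z)).sep k₀ u.1 ∨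
          ∃ i, (2 : ℝ) ^ (-(κ₂ * d.X)) < |(d.ld (Pool.Agent.H49.Ent.cond d.p d.gx z)).co (d.T u.2) i -
            (d.ld (Pool.Agent.H49.Ent.cond d.p d.gx z)).itp u.1 i
              ((d.ld (Pool.Agent.H49.Ent.cond d.p d.gx z)).th (d.T u.2))|} ≤ ε) :
    Pr (q1 d.p d.L n) (d.Bad k₀ κ₂) ≤ Pr d.p {ω | d.gx ω ∈ bad} + ε := by
  classical
  have hp := hd.law
  have hp0 := hp.nonneg
  have hLg : Det d.p d.L d.gx := fun ω ω' a a' e => by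
    unfold gx Gl
    rw [hd.bxL ω ω' a a' e, hd.cL ω ω' a a' e]
  refine q1_mix (n := n) hp hLg _ bad hε fun z hz hzb => ?_
  have h4 := h z hz hzb
  rw [ld_Q1] at h4
  refine le_trans ?_ h4
  have hz0 : ∀ ω, 0 ≤ Pool.Agent.H49.Ent.cond d.p d.gx z ω := fun ω => cond_nonneg hp0 d.gx z ω
  have hq0 : ∀ u, 0 ≤ q1 (Pool.Agent.H49.Ent.cond d.p d.gx z) d.L n u := fun u =>
    glue_nonneg (fun v => tup_nonneg hz0 _ n v) hz0 u
  refine Pool.KAF.Pr_mono hq0 fun u hu hA' => ?_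
  have hu' := (glue_pos_iff (Z₁ := fun v : Fin (n + 1) → d.Om => d.L (v 0))
    (Z₂ := d.L) (fun v => tup_nonneg hz0 d.L n v) hz0 u).1 hu
  have hu1 := (tup_pos_iff hz0 d.L n u.1).1 hu'.1
  have p1 : ∀ j, 0 < d.p (u.1 j) := fun j => ((cond_pos_iff hp0 d.gx z _).1 (hu1.1 j)).1
  have p2 : 0 < d.p u.2 := ((cond_pos_iff hp0 d.gx z _).1 hu'.2.1).1
  rcases hA' with ⟨j, j', hj, hjj⟩ | ⟨i, hi⟩
  · left
    intro hs
    have h6 := hs j j' hj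
    change (2 : ℝ) ^ (-(k₀ : ℤ)) ≤
      |(d.ld (Pool.Agent.H49.Ent.cond d.p d.gx z)).th (d.T (u.1 j)) -
        (d.ld (Pool.Agent.H49.Ent.cond d.p d.gx z)).th (d.T (u.1 j'))| at h6
    rw [th_eq hd (p1 j), th_eq hd (p1 j')] at h6
    linarith
  · right
    refine ⟨i, ?_⟩
    change (2 : ℝ) ^ (-(κ₂ * d.X)) < |(d.ld (Pool.Agent.H49.Ent.cond d.p d.gx z)).co (d.T u.2) i -
      (Lagrange.interpolate univ
        (fun j => (d.ld (Pool.Agent.H49.Ent.cond d.p d.gx z)).th (d.T (u.1 j)))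
        (fun j => (d.ld (Pool.Agent.H49.Ent.cond d.p d.gx z)).co (d.T (u.1 j)) i)).eval
          ((d.ld (Pool.Agent.H49.Ent.cond d.p d.gx z)).th (d.T u.2))|
    have e1 : (fun j => (d.ld (Pool.Agent.H49.Ent.cond d.p d.gx z)).th (d.T (u.1 j))) =
        fun j => d.th (u.1 j) := funext fun j => th_eq hd (p1 j)
    have e2 : (fun j => (d.ld (Pool.Agent.H49.Ent.cond d.p d.gx z)).co (d.T (u.1 j)) i) =
        fun j => (d.sh (u.1 j) i : ℝ) / 2 ^ d.X := funext fun j => co_eq (p1 j) i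
    rw [e1, e2, co_eq p2, th_eq hd p2]
    exact hi

/-- **Fixed nodes on every line.** -/
theorem fin_thm {d : CDat k n K} {E B : ℝ} (hd : d.OK E B) (hB : 0 ≤ B) (k₀ : ℕ) {κ₂ ε : ℝ}
    (h : Pr (q1 d.p d.L n) (d.Bad k₀ κ₂) ≤ ε) :
    ∃ Rr : d.Lam → Fin (n + 1) → Mon k K → ℝ,
      (∀ l i al, |Rr l i al| ≤ (n + 1) * 2 ^ (n + k₀ * n) * B) ∧
      Pr d.p {ω | ∃ al, (2 : ℝ) ^ (-(κ₂ * d.X)) < |(d.sh ω al : ℝ) / 2 ^ d.X -
        ∑ i, Rr (d.L ω) i al * d.th ω ^ (i : ℕ)|} ≤ ε := by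
  classical
  have hp := hd.law
  have hp0 := hp.nonneg
  have hXp : (0 : ℝ) < 2 ^ d.X := by positivity
  obtain ⟨v, hv1, hv2⟩ := nodes hp d.L n (d.Bad k₀ κ₂)
  set ok : d.Lam → Prop := fun l => (∀ j, 0 < d.p (v l j)) ∧ ∀ j j', j ≠ j' →
    (2 : ℝ) ^ (-(k₀ : ℤ)) ≤ |d.th (v l j) - d.th (v l j')| with hok
  set Rr : d.Lam → Fin (n + 1) → Mon k K → ℝ :=
    fun l i al => if ok l then lag (fun j => d.th (v l j))
      (fun j => (d.sh (v l j) al : ℝ) / 2 ^ d.X) i else 0 with hRr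
  refine ⟨Rr, ?_, ?_⟩
  · intro l i al
    simp only [hRr]
    by_cases hl : ok l
    · rw [if_pos hl]
      refine L31.lag_le (fun j => ?_) hl.2 (fun j => ?_) _
      · obtain ⟨a1, a2⟩ := hd.th01 _ (hl.1 j)
        rw [abs_of_nonneg a1]
        exact a2.le
      · rw [abs_div, abs_of_pos hXp, div_le_iff₀ hXp]
        exact hd.shb _ (hl.1 j) al
    · rw [if_neg hl, abs_zero]
      positivity
  · refine le_trans ?_ (hv1.trans h)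
    refine Pool.KAF.Pr_mono hp0 fun ω hω hω' => ?_
    show (v (d.L ω), ω) ∈ d.Bad k₀ κ₂
    by_contra hcon
    unfold Bad at hcon
    rw [Set.mem_ofPred_eq, not_or] at hcon
    obtain ⟨h6, h7⟩ := hcon
    push Not at h6 h7
    have hokl : ok (d.L ω) := ⟨hv2 ω hω, h6⟩
    obtain ⟨al, hal⟩ := hω'
    have h8 := h7 al
    simp only [hRr, if_pos hokl] at hal
    rw [lag_sum_pow (L31.inj_of_sep h6)] at h8
    exact absurd hal (not_lt.2 h8)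

/-- **The abstract core.** `B` may be as large as `2 ^ (ι X)`. -/
theorem acore (k n K : ℕ) (E : ℝ) {c ε : ℝ} (hc : 0 < c) (hε : 0 < ε) :
    ∃ (κ₂ κ π₀ ι ε₀ C₁ : ℝ) (j₀ X₀ : ℕ), 0 < κ₂ ∧ 0 < κ ∧ κ ≤ 1 ∧ 0 < π₀ ∧ 0 < ι ∧ 0 < ε₀ ∧
      ∀ (d : CDat k n K) (B : ℝ), d.OK E B → X₀ ≤ d.X → 0 ≤ B → B ≤ (2 : ℝ) ^ (ι * d.X) →
      d.Av c κ π₀ ι ι →
      (1 - ι) * d.X * Real.log 2 ≤ CH d.p (fun ω => ⌊(2 : ℝ) ^ d.X * d.th ω⌋) d.L →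
      j₀ * Real.log 2 - ε₀ ≤ CH d.p (fun ω => ⌊(2 : ℝ) ^ j₀ * d.th ω⌋) d.L →
      ∃ Rr : d.Lam → Fin (n + 1) → Mon k K → ℝ, (∀ l i al, |Rr l i al| ≤ C₁ * B) ∧
        Pr d.p {ω | ∃ al, (2 : ℝ) ^ (-(κ₂ * d.X)) < |(d.sh ω al : ℝ) / 2 ^ d.X -
          ∑ i, Rr (d.L ω) i al * d.th ω ^ (i : ℕ)|} ≤ ε := by
  classical
  obtain ⟨b, hb1, hb2⟩ := Pool.Agent.H1.M5.tay_thm k K
  obtain ⟨A, hA⟩ := pow_unbounded_of_one_lt E (one_lt_two : (1 : ℝ) < 2)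
  have hl2 : 0 < Real.log 2 := Real.log_pos one_lt_two
  set c₁ : ℝ := min (c / 2) (1 / 2) with hc₁
  have hc₁0 : 0 < c₁ := lt_min (by positivity) (by norm_num)
  have hc₁c : c₁ < c := (min_le_left _ _).trans_lt (by linarith)
  have hc₁1 : c₁ < 1 := (min_le_right _ _).trans_lt (by norm_num)
  obtain ⟨κ₂, κ, π₁, ι₁, ε₁, k₀, j₀, X₁, a1, a2, a3, a4, a5, a6, hL⟩ :=
    Pool.M5.l1w k n K A b c₁ (ε / 4) hb1 hb2 hc₁0 (by positivity)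
  obtain ⟨π₀, ι, X₂, b1, b2, hC⟩ := ctx_thm k n K b hb1 (E := E) A hA.le
    (c := c) (c₁ := c₁) (κ := κ) (η := ε / 2) (ι₃ := ι₁) (π₁ := π₁) (ι₁ := ι₁) hc₁c hc₁1 a2
    (by positivity) a5 a4 a5
  set ι' : ℝ := min ι (min ι₁ (min (ε / 2 * ι₁ / 16) (ε / 8 * ι₁))) with hι'
  have hι'0 : 0 < ι' := lt_min b2 (lt_min a5 (lt_min (by positivity) (by positivity)))
  have i1 : ι' ≤ ι := min_le_left _ _
  have i0 : ι' ≤ ι₁ := (min_le_right _ _).trans (min_le_left _ _)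
  have i2 : ι' ≤ ε / 2 * ι₁ / 16 :=
    (min_le_right _ _).trans ((min_le_right _ _).trans (min_le_left _ _))
  have i3 : ι' ≤ ε / 8 * ι₁ :=
    (min_le_right _ _).trans ((min_le_right _ _).trans (min_le_right _ _))
  refine ⟨κ₂, κ / 2, π₀, ι', ε / 8 * ε₁, (n + 1) * 2 ^ (n + k₀ * n), j₀,
    max X₁ (max X₂ 1), a1, by positivity, by linarith, b1, hι'0, by positivity, ?_⟩
  intro d B hd hX hB hBX hav ht1 ht2
  have hp := hd.law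
  have hp0 := hp.nonneg
  have hX1 : X₁ ≤ d.X := (le_max_left _ _).trans hX
  have hX2 : X₂ ≤ d.X := ((le_max_left _ _).trans (le_max_right _ _)).trans hX
  have hXpos : (0 : ℝ) < d.X := by
    have : 1 ≤ d.X := ((le_max_right _ _).trans (le_max_right _ _)).trans hX
    exact_mod_cast this
  have hBX' : B ≤ (2 : ℝ) ^ (ι₁ * d.X) :=
    hBX.trans (Real.rpow_le_rpow_of_exponent_le (by norm_num)
      (mul_le_mul_of_nonneg_right i0 hXpos.le))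
  have hav' : d.Av c (κ / 2) π₀ ι (ε / 2 * ι₁ / 16) := by
    refine ⟨hav.hl.trans i1, hav.h1.trans (mul_le_mul_of_nonneg_right i1 hXpos.le),
      hav.h1s.trans (mul_le_mul_of_nonneg_right i1 hXpos.le),
      hav.h2.trans (mul_le_mul_of_nonneg_right i1 hXpos.le), le_trans ?_ hav.h3, hav.h5⟩
    refine mul_le_mul_of_nonneg_right (mul_le_mul_of_nonneg_right ?_ hXpos.le) hl2.le
    linarith
  have htb : ∀ j : ℕ, ∀ p' : d.Om → ℝ, IsLaw p' → (∀ ω, 0 < p' ω → 0 < d.p ω) →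
      CH p' (fun ω => ⌊(2 : ℝ) ^ j * d.th ω⌋) d.L ≤ j * Real.log 2 := fun j p' hp' hs =>
    H_box1 hp' _ (fun ω hω => floor_unit_mem (hd.th01 ω (hs ω hω)).1 (hd.th01 ω (hs ω hω)).2) _
  have hctx := hC d B hd hX2 hBX' hav' (fun ω => ⌊(2 : ℝ) ^ d.X * d.th ω⌋)
    (fun ω => ⌊(2 : ℝ) ^ j₀ * d.th ω⌋) (d.X * Real.log 2) (j₀ * Real.log 2)
    (ι' * d.X * Real.log 2) (ε / 8 * ε₁) (ι₁ * d.X * Real.log 2) ε₁ (by positivity) a6
    (htb d.X) (htb j₀) (by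
      refine le_trans (le_of_eq ?_) ht1
      ring) ht2
  set bad : Set (d.Bx × Prop) := {z | ¬ (d.Gd b A c₁ κ π₁ ι₁ ι₁ z ∧
    d.X * Real.log 2 - ι₁ * d.X * Real.log 2 ≤ CH (Pool.Agent.H49.Ent.cond d.p d.gx z)
      (fun ω => ⌊(2 : ℝ) ^ d.X * d.th ω⌋) d.L ∧
    j₀ * Real.log 2 - ε₁ ≤ CH (Pool.Agent.H49.Ent.cond d.p d.gx z)
      (fun ω => ⌊(2 : ℝ) ^ j₀ * d.th ω⌋) d.L)} with hbad
  have hQ := mix_thm hd k₀ (κ₂ := κ₂) (ε := ε / 4) (by positivity) bad (fun z hz hzb => by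
    obtain ⟨⟨g1, g2, g3, g4, g5⟩, g6, g7⟩ := not_not.1 hzb
    have hs' : ∀ ω', 0 < Pool.Agent.H49.Ent.cond d.p d.gx z ω' → 0 < d.p ω' :=
        fun ω' h' => ((cond_pos_iff hp0 d.gx _ ω').1 h').1
    have hp' : IsLaw (Pool.Agent.H49.Ent.cond d.p d.gx z) :=
        ⟨fun v => cond_nonneg hp0 d.gx _ v, sum_cond d.p d.gx hz.ne'⟩
    have e : ∀ i : ℕ, CH (Pool.Agent.H49.Ent.cond d.p d.gx z)
        (fun ω => ⌊(2 : ℝ) ^ i * (d.ld (Pool.Agent.H49.Ent.cond d.p d.gx z)).th (d.T ω)⌋) d.L =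
        CH (Pool.Agent.H49.Ent.cond d.p d.gx z) (fun ω => ⌊(2 : ℝ) ^ i * d.th ω⌋) d.L := fun i =>
      CH_supp hp'.nonneg (fun ω hω => by rw [th_eq hd (hs' ω hω)]) (fun _ _ => rfl)
    refine hL (d.ld (Pool.Agent.H49.Ent.cond d.p d.gx z)) g1 hX1 ⟨g2, ?_, ?_⟩ g3 g4 g5
    · change (1 - ι₁) * (d.X : ℝ) * Real.log 2 ≤ CH (Pool.Agent.H49.Ent.cond d.p d.gx z)
        (fun ω => ⌊(2 : ℝ) ^ d.X * (d.ld (Pool.Agent.H49.Ent.cond d.p d.gx z)).th (d.T ω)⌋) d.L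
      rw [e]
      refine le_trans (le_of_eq ?_) g6
      ring
    · change (j₀ : ℝ) * Real.log 2 - ε₁ ≤ CH (Pool.Agent.H49.Ent.cond d.p d.gx z)
        (fun ω => ⌊(2 : ℝ) ^ j₀ * (d.ld (Pool.Agent.H49.Ent.cond d.p d.gx z)).th (d.T ω)⌋) d.L
      rw [e]
      exact g7)
  refine fin_thm hd hB k₀ (hQ.trans ?_)
  have h1 : Pr d.p {ω | d.gx ω ∈ bad} ≤ ε / 2 / 2 + ι' * d.X * Real.log 2 /
      (ι₁ * d.X * Real.log 2) + ε / 8 * ε₁ / ε₁ := hctx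
  have h2 : ι' * d.X * Real.log 2 / (ι₁ * d.X * Real.log 2) ≤ ε / 8 := by
    rw [div_le_iff₀ (by positivity)]
    have h3 := mul_le_mul_of_nonneg_right i3 (mul_nonneg hXpos.le hl2.le)
    linarith
  have h3 : ε / 8 * ε₁ / ε₁ = ε / 8 := by field_simp
  rw [h3] at h1
  linarith

end CDat

end Pool.L1B
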