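import Pool.Agent.H35.L1B.Data

/-!
# The abstract core: most contexts satisfy the hypotheses of lemma L1
-/

set_option autoImplicit false

namespace Pool.L1B

open Finset Real
open Pool.Agent.H49.Ent Pool.Agent.H32.Dense Pool.STK Pool.KAF Pool.M5 Pool.SLO

variable {k n K : ℕ}

namespace CDat

/-- **The average hypotheses**, without the times. `ι₃` is the constant of (H3). -/
structure Av (d : CDat k n K) (c κ π₀ ι ι₃ : ℝ) : Prop where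
  hl : Pr d.p {ω | ¬ d.Gl ω} ≤ ι
  h1 : Pool.KVA.MI d.p d.W d.L d.bx ≤ ι * d.X
  h1s : CH d.p d.sh (fun ω => (d.bx ω, d.W ω)) ≤ ι * d.X
  h2 : Pool.KVA.MI d.p d.N (fun ω => (d.y ω, d.c ω)) (fun ω => (d.bx ω, d.W ω)) ≤ ι * d.X
  h3 : (k - ι₃) * d.X * Real.log 2 ≤ CH d.p d.y d.bx
  h5 : ∀ r h : ℕ, κ * d.X ≤ h → r + h ≤ d.X → ∀ E : Set d.Om, π₀ ≤ Pr d.p E →
    CH (Pool.Agent.H49.Ent.cond d.p (fun ω => ω ∈ E) True)
      (fun ω => d.N ω / 2 ^ (d.X - (r + h)))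
      (fun ω => (d.N ω / 2 ^ (d.X - r), (d.bx ω, d.W ω))) ≤ (1 - c) * h * Real.log 2

/-- The hypotheses of L1 for the context `z`, without the times. -/
def Gd (d : CDat k n K) (b : Bas k (Mon k K)) (A : ℕ) (c κ π₁ ι₁ ι₃ : ℝ) (z : d.Bx × Prop) :
    Prop :=
  (d.ld (Pool.Agent.H49.Ent.cond d.p d.gx z)).OK b A (ι₃ * d.X) ∧
  Pool.KVA.MI (Pool.Agent.H49.Ent.cond d.p d.gx z) d.T d.L (fun _ => ()) ≤ ι₁ * d.X ∧
  ((d.ld (Pool.Agent.H49.Ent.cond d.p d.gx z)).toR b).H2 ι₁ ∧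
  (d.ld (Pool.Agent.H49.Ent.cond d.p d.gx z)).H3 ι₃ ∧
  ((d.ld (Pool.Agent.H49.Ent.cond d.p d.gx z)).toR b).H5 c κ π₁ ∅

theorem ld_H2 {d : CDat k n K} {E B : ℝ} (hd : d.OK E B) {p' : d.Om → ℝ} (hp' : IsLaw p')
    (hsub : ∀ ω, 0 < p' ω → 0 < d.p ω) (b : Bas k (Mon k K)) {ι : ℝ}
    (h : Pool.KVA.MI p' d.N (fun ω => (d.y ω, d.c ω)) d.T ≤ ι * d.X) :
    ((d.ld p').toR b).H2 ι := by
  have h0 := hp'.nonneg
  refine le_trans (le_of_eq ?_) h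
  change Pool.KVA.MI p' d.N (fun ω => ((d.ld p').y (d.L ω), (d.ld p').c (d.L ω))) d.T = _
  rw [Pool.M5.MI_eq h0, Pool.M5.MI_eq h0]
  congr 1
  refine CH_supp h0 (fun _ _ => rfl) fun ω hω => ?_
  rw [y_eq hd hsub hω, c_eq hd hsub hω]

theorem ld_H3 {d : CDat k n K} {E B : ℝ} (hd : d.OK E B) {p' : d.Om → ℝ} (hp' : IsLaw p')
    (hsub : ∀ ω, 0 < p' ω → 0 < d.p ω) {ι : ℝ}
    (h : k * d.X * Real.log 2 - ι * d.X * Real.log 2 ≤ H p' d.y) : (d.ld p').H3 ι := by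
  have h0 := hp'.nonneg
  have e : H p' (fun ω => (d.ld p').y (d.L ω)) = H p' d.y :=
    H_congr h0 (fun ω ω' a a' e => by
      rw [y_eq hd hsub a, y_eq hd hsub a']
      exact e) (fun ω ω' a a' e => by
      rw [y_eq hd hsub a, y_eq hd hsub a'] at e
      exact e)
  change (k - ι) * d.X * Real.log 2 ≤ H p' (fun ω => (d.ld p').y (d.L ω))
  rw [e]
  refine le_trans (le_of_eq ?_) h
  ring

/-- **Most contexts are good.** -/
theorem ctx_thm (k n K : ℕ) (b : Bas k (Mon k K)) (hb : ∀ i, b.g i = mono (i : Fin k → ℕ))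
    {E : ℝ} (A : ℕ) (hE : E ≤ 2 ^ A) {c c₁ κ η ι₃ π₁ ι₁ : ℝ} (hcc : c₁ < c) (hc1 : c₁ < 1)
    (hκ : 0 < κ) (hη : 0 < η) (hι₃ : 0 < ι₃) (hπ : 0 < π₁) (hι₁ : 0 < ι₁) :
    ∃ (π₀ ι : ℝ) (X₀ : ℕ), 0 < π₀ ∧ 0 < ι ∧ ∀ (d : CDat k n K) (B : ℝ), d.OK E B → X₀ ≤ d.X →
      B ≤ (2 : ℝ) ^ (ι₃ * d.X) → d.Av c (κ / 2) π₀ ι (η * ι₃ / 16) → ∀ (t₁ t₂ : d.Om → ℤ) (m₁ m₂ e₂ e₃ θ₂ θ₃ : ℝ),
      0 < θ₂ → 0 < θ₃ →
      (∀ p' : d.Om → ℝ, IsLaw p' → (∀ ω, 0 < p' ω → 0 < d.p ω) → CH p' t₁ d.L ≤ m₁) →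
      (∀ p' : d.Om → ℝ, IsLaw p' → (∀ ω, 0 < p' ω → 0 < d.p ω) → CH p' t₂ d.L ≤ m₂) →
      m₁ - e₂ ≤ CH d.p t₁ d.L → m₂ - e₃ ≤ CH d.p t₂ d.L →
      Pr d.p {ω | ¬ (d.Gd b A c₁ κ π₁ ι₁ ι₃ (d.gx ω) ∧
        m₁ - θ₂ ≤ CH (Pool.Agent.H49.Ent.cond d.p d.gx (d.gx ω)) t₁ d.L ∧
        m₂ - θ₃ ≤ CH (Pool.Agent.H49.Ent.cond d.p d.gx (d.gx ω)) t₂ d.L)} ≤
        η / 2 + e₂ / θ₂ + e₃ / θ₃ := by
  classical
  have hl2 : 0 < Real.log 2 := Real.log_pos one_lt_two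
  set nb : ℕ := ⌈2 / κ⌉₊ + 1 with hnb
  have hnb0 : (0 : ℝ) < nb := by
    rw [hnb]
    positivity
  set η₁ : ℝ := η / 16 with hη₁
  have hη₁0 : 0 < η₁ := by positivity
  set ι : ℝ := min η₁ (η₁ * ι₁ / 2) with hιd
  have hι0 : 0 < ι := lt_min hη₁0 (by positivity)
  have hιa : ι ≤ η₁ := min_le_left _ _
  have hιb : ι ≤ η₁ * ι₁ / 2 := min_le_right _ _
  set X₀ : ℕ := ⌈2 / κ⌉₊ + ⌈1 / (η₁ * ι₃)⌉₊ + 1 with hX₀
  refine ⟨η₁ * π₁ / nb, ι, X₀, by positivity, hι0, ?_⟩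
  intro d B hd hX hBX hav t₁ t₂ m₁ m₂ e₂ e₃ θ₂ θ₃ hθ₂ hθ₃ ht₁ ht₂ hm₁ hm₂
  have hp := hd.law
  have hp0 := hp.nonneg
  have hX1 : 2 / κ ≤ d.X := by
    have h1 := Nat.le_ceil (2 / κ)
    have h2 : ((⌈2 / κ⌉₊ : ℕ) : ℝ) ≤ d.X := by exact_mod_cast (by omega : ⌈2 / κ⌉₊ ≤ d.X)
    linarith
  have hX3 : 1 / (η₁ * ι₃) ≤ d.X := by
    have h1 := Nat.le_ceil (1 / (η₁ * ι₃))
    have h2 : ((⌈1 / (η₁ * ι₃)⌉₊ : ℕ) : ℝ) ≤ d.X := by
      exact_mod_cast (by omega : ⌈1 / (η₁ * ι₃)⌉₊ ≤ d.X)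
    linarith
  have hXpos : (0 : ℝ) < d.X := by
    have : 1 ≤ d.X := by omega
    exact_mod_cast this
  -- the height of the blocks
  set h : ℕ := ⌊κ * (d.X : ℝ)⌋₊ with hh
  have hκX : 2 ≤ κ * d.X := by
    rw [div_le_iff₀ hκ] at hX1
    linarith
  have hh1 : κ * d.X < h + 1 := Nat.lt_floor_add_one _
  have hhκ : κ / 2 * d.X ≤ h := by linarith
  have hh0 : (0 : ℝ) < h := by linarith
  set g := d.gx with hg
  have hgl : Det d.p d.L d.Gl := fun ω ω' a a' e => by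
    unfold Gl
    rw [hd.cL ω ω' a a' e]
  have hmi1 : Pool.KVA.MI d.p d.T d.L d.bx ≤ 2 * ι * d.X := by
    have h6 := mi_ext_fst hp0 d.W d.sh d.L d.bx
    have h7 : Pool.KVA.MI d.p d.T d.L d.bx = Pool.KVA.MI d.p (fun ω => (d.W ω, d.sh ω)) d.L d.bx :=
      rfl
    have := hav.h1
    have := hav.h1s
    linarith
  have hmi2 : Pool.KVA.MI d.p d.N (fun ω => (d.y ω, d.c ω)) (fun ω => (d.T ω, d.bx ω)) ≤
      2 * ι * d.X := by
    have h6 := mi_ext_cond hp0 d.N (fun ω => (d.y ω, d.c ω)) d.W d.sh d.bx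
    have h7 : Pool.KVA.MI d.p d.N (fun ω => (d.y ω, d.c ω)) (fun ω => (d.T ω, d.bx ω)) =
      Pool.KVA.MI d.p d.N (fun ω => (d.y ω, d.c ω)) (fun ω => ((d.W ω, d.sh ω), d.bx ω)) := rfl
    have := hav.h2
    have := hav.h1s
    linarith
  -- the choice
  have hpick := pick (p := d.p) hp d.bx d.Gl d.L d.T d.N (fun ω => (d.y ω, d.c ω)) d.y t₁ t₂
    (my := k * d.X * Real.log 2) (m₁ := m₁) (m₂ := m₂)
    (e₁ := 2 * ι * d.X) (e₂ := e₂) (e₃ := e₃) (e₄ := 2 * ι * d.X)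
    (e₅ := η₁ * ι₃ * d.X * Real.log 2 + Real.log 2)
    (θ₁ := ι₁ * d.X) (θ₂ := θ₂) (θ₃ := θ₃) (θ₄ := ι₁ * d.X)
    (θ₅ := ι₃ * d.X * Real.log 2) (by positivity) hθ₂ hθ₃ (by positivity) (by positivity)
    hd.bxL hgl (fun ω ω' _ _ h' => by
      have h1 := (Prod.ext_iff.1 (Prod.ext_iff.1 h').1).2
      simp only at h1
      unfold Gl
      rw [h1])
    (fun p' hp' hs => H_box hp' _ fun ω hω j => hd.y01 ω (hs ω hω) j)
    ht₁ ht₂ hmi1 hm₁ hm₂ hmi2 (by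
      have := hav.h3
      have e0 : (η * ι₃ / 16 : ℝ) = η₁ * ι₃ := by
        rw [hη₁]
        ring
      rw [e0] at this
      linarith)
  -- the rows
  have hrow := Pool.SLP.h5_ctx (R := Fin nb) hp g
    (fun r ω => if ((r : ℕ) + 1) * h ≤ d.X then d.N ω / 2 ^ (d.X - ((r : ℕ) + 1) * h) else 0)
    (fun r ω => (d.N ω / 2 ^ (d.X - (r : ℕ) * h), d.T ω))
    ((1 - c₁) * h * Real.log 2) (η₁ * π₁ / nb) π₁ hπ (by positivity) (by
      intro E' hE' r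
      have hr0 : ∀ ω, 0 ≤ rs d.p E' ω := fun ω => cond_nonneg hp0 _ _ ω
      by_cases hr : ((r : ℕ) + 1) * h ≤ d.X
      · simp only [if_pos hr]
        have h1 := hav.h5 ((r : ℕ) * h) h hhκ (by
          rw [← Nat.succ_mul]
          exact hr) E' hE'
        have e6 : (r : ℕ) * h + h = ((r : ℕ) + 1) * h := by ring
        rw [e6] at h1
        have h2 : CH (rs d.p E') (fun ω => d.N ω / 2 ^ (d.X - ((r : ℕ) + 1) * h))
            (fun ω => ((d.N ω / 2 ^ (d.X - (r : ℕ) * h), d.T ω), g ω)) ≤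
            CH (rs d.p E') (fun ω => d.N ω / 2 ^ (d.X - ((r : ℕ) + 1) * h))
            (fun ω => (d.N ω / 2 ^ (d.X - (r : ℕ) * h), (d.bx ω, d.W ω))) := by
          refine CH_mono_cond hr0 ?_
          intro ω ω' _ _ h'
          simp only [hg, gx, T, Prod.mk.injEq] at h' ⊢
          tauto
        refine (h2.trans h1).trans_lt ?_
        have h3 : (1 - c) * (h : ℝ) < (1 - c₁) * h := mul_lt_mul_of_pos_right (by linarith) hh0
        exact mul_lt_mul_of_pos_right h3 hl2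
      · simp only [if_neg hr]
        have h1 : CH (rs d.p E') (fun _ => (0 : ℤ))
            (fun ω => ((d.N ω / 2 ^ (d.X - (r : ℕ) * h), d.T ω), g ω)) = 0 :=
          CH_eq_zero hr0 fun _ _ _ _ _ => rfl
        rw [h1]
        have : 0 < 1 - c₁ := by linarith
        positivity)
  rw [Fintype.card_fin] at hrow
  have hrow' : η₁ * π₁ / nb * nb / π₁ = η₁ := by
    field_simp
  rw [hrow'] at hrow
  -- union
  have hU := Pool.M5T.Pr_or (p := d.p) hp0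
    (A := {ω | ¬ (d.Gd b A c₁ κ π₁ ι₁ ι₃ (d.gx ω) ∧
        m₁ - θ₂ ≤ CH (Pool.Agent.H49.Ent.cond d.p d.gx (d.gx ω)) t₁ d.L ∧
        m₂ - θ₃ ≤ CH (Pool.Agent.H49.Ent.cond d.p d.gx (d.gx ω)) t₂ d.L)})
    (B := {ω | ¬ (d.Gl ω ∧
      Pool.KVA.MI (Pool.Agent.H49.Ent.cond d.p (fun ω => (d.bx ω, d.Gl ω)) (d.bx ω, d.Gl ω))
        d.T d.L (fun _ => ()) ≤ ι₁ * d.X ∧
      m₁ - θ₂ ≤ CH (Pool.Agent.H49.Ent.cond d.p (fun ω => (d.bx ω, d.Gl ω)) (d.bx ω, d.Gl ω))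
        t₁ d.L ∧
      m₂ - θ₃ ≤ CH (Pool.Agent.H49.Ent.cond d.p (fun ω => (d.bx ω, d.Gl ω)) (d.bx ω, d.Gl ω))
        t₂ d.L ∧
      Pool.KVA.MI (Pool.Agent.H49.Ent.cond d.p (fun ω => (d.bx ω, d.Gl ω)) (d.bx ω, d.Gl ω))
        d.N (fun ω => (d.y ω, d.c ω)) d.T ≤ ι₁ * d.X ∧
      k * d.X * Real.log 2 - ι₃ * d.X * Real.log 2 ≤
        H (Pool.Agent.H49.Ent.cond d.p (fun ω => (d.bx ω, d.Gl ω)) (d.bx ω, d.Gl ω)) d.y)})
    (C := {ω | ∃ (r : Fin nb) (E' : Set d.Om),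
      π₁ ≤ Pr (Pool.Agent.H49.Ent.cond d.p g (g ω)) E' ∧ (1 - c₁) * h * Real.log 2 ≤
        CH (rs (Pool.Agent.H49.Ent.cond d.p g (g ω)) E')
          (fun ω => if ((r : ℕ) + 1) * h ≤ d.X then d.N ω / 2 ^ (d.X - ((r : ℕ) + 1) * h) else 0)
          (fun ω => (d.N ω / 2 ^ (d.X - (r : ℕ) * h), d.T ω))})
    (by
      intro ω hω hA'
      by_contra hcon
      rw [not_or] at hcon
      obtain ⟨hB', hC'⟩ := hcon
      have hB2 := not_not.1 hB'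
      obtain ⟨g0, g1, g2, g3, g4, g5⟩ := hB2
      apply hA'
      have hz := law_pos hp0 d.gx hω
      have hp' : IsLaw (Pool.Agent.H49.Ent.cond d.p d.gx (d.gx ω)) :=
        ⟨fun v => cond_nonneg hp0 d.gx _ v, sum_cond d.p d.gx hz.ne'⟩
      have hs' : ∀ ω', 0 < Pool.Agent.H49.Ent.cond d.p d.gx (d.gx ω) ω' → 0 < d.p ω' :=
        fun ω' h' => ((cond_pos_iff hp0 d.gx _ ω').1 h').1
      have hG' : ∀ ω', 0 < Pool.Agent.H49.Ent.cond d.p d.gx (d.gx ω) ω' → d.Gl ω' := by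
        intro ω' h'
        have h1 := (Prod.ext_iff.1 ((cond_pos_iff hp0 d.gx _ ω').1 h').2).2
        exact h1.mpr g0
      refine ⟨⟨?_, g1, ?_, ?_, ?_⟩, g2, g3⟩
      · exact ld_ok hd hs' hp' hG' hE hBX b hb
      · exact ld_H2 hd hp' hs' b g4
      · exact ld_H3 hd hp' hs' g5
      · intro j _ hj E' hE'
        have hj' : (j + 1) * h ≤ d.X := hj
        have hjnb : j < nb := by
          have h1 : ((j : ℝ) + 1) * h ≤ d.X := by exact_mod_cast hj'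
          have h2 : ((j : ℝ) + 1) * (κ / 2 * d.X) ≤ d.X :=
            (mul_le_mul_of_nonneg_left hhκ (by positivity)).trans h1
          have h3 : ((j : ℝ) + 1) * (κ / 2) ≤ 1 := by
            by_contra h4
            rw [not_le] at h4
            have h5 := mul_lt_mul_of_pos_right h4 hXpos
            rw [one_mul, mul_assoc] at h5
            linarith
          have h4 : ((j : ℝ) + 1) ≤ 2 / κ := by
            rw [le_div_iff₀ hκ]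
            linarith
          have h5 := Nat.le_ceil (2 / κ)
          have h6 : ((j : ℝ) + 1) ≤ (⌈2 / κ⌉₊ : ℕ) := h4.trans h5
          have h7 : j + 1 ≤ ⌈2 / κ⌉₊ := by exact_mod_cast h6
          omega
        by_contra hlt
        rw [not_le] at hlt
        apply hC'
        refine ⟨⟨j, hjnb⟩, E', hE', ?_⟩
        simp only [if_pos hj']
        exact hlt.le)
  have hfin := hU.trans (add_le_add hpick hrow)
  refine hfin.trans ?_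
  have e1 : 2 * ι * d.X / (ι₁ * d.X) ≤ η₁ := by
    rw [div_le_iff₀ (by positivity)]
    have := mul_le_mul_of_nonneg_right hιb hXpos.le
    linarith
  have e5 : (η₁ * ι₃ * d.X * Real.log 2 + Real.log 2) / (ι₃ * d.X * Real.log 2) ≤ 2 * η₁ := by
    rw [div_le_iff₀ (by positivity)]
    have h1 : 1 ≤ η₁ * (ι₃ * d.X) := by
      rw [div_le_iff₀ (by positivity)] at hX3
      linarith
    have h2 := mul_le_mul_of_nonneg_right h1 hl2.le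
    linarith
  have e6 : η / 2 = 8 * η₁ := by
    rw [hη₁]
    ring
  have := hav.hl
  rw [e6]
  linarith

end CDat

end Pool.L1B
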