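import Pool.Agent.H81.SLP.CoreK

/-!
# The abstract core: lemma L1 for most contexts, without families and boxes

`CDat`: a finite law `p` of samples; `L` is the line (with its window), `bx` the context (a function
of the line), `W` the time variables, `th` the time in the window; `y` the digits of the position of
the line in the box of the context, `c` the digits of its unknown numbers, `N` the digits of the
height of the sample, `sh` the digits of the coefficients of the own shape, `sf` a shift which is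
known from the time variables and the shape. No box occurs: the coordinates of the position may have
any sides, and may be measured from functions of the time and of the lower coordinates which are
known in the context, as long as `y` is constant along the line to `X` digits.

`ld p'`: the data of lemma L1 for a law `p'` on the same samples.
-/

set_option autoImplicit false

namespace Pool.L1B

open Finset Real
open Pool.Agent.H49.Ent Pool.Agent.H32.Dense Pool.STK Pool.KAF Pool.M5 Pool.SLO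

/-- The data. -/
structure CDat (k n K : ℕ) where
  Om : Type
  Lam : Type
  Bx : Type
  Tau : Type
  [fin : Fintype Om]
  p : Om → ℝ
  L : Om → Lam
  bx : Om → Bx
  W : Om → Tau
  y : Om → Fin k → ℤ
  c : Om → Fin n → ℤ
  N : Om → ℤ
  sh : Om → Mon k K → ℤ
  th : Om → ℝ
  sf : Om → ℝ
  X : ℕ

attribute [instance] CDat.fin

namespace CDat

variable {k n K : ℕ} (d : CDat k n K)

/-- The value at the position `y` of the shape with the coefficients `s`. -/
noncomputable def shv (s : Mon k K → ℤ) (y : Fin k → ℤ) : ℝ :=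
  ∑ al : Mon k K, (s al : ℝ) * mono (al : Fin k → ℕ) (fun j => (y j : ℝ) / 2 ^ d.X)

/-- The basic assumptions. `E`: error of the identity of the heights along a line; `B`: bound for
the coefficients of the shape. -/
structure OK (E B : ℝ) : Prop where
  law : IsLaw d.p
  bxL : Det d.p d.L d.bx
  yL : Det d.p d.L d.y
  cL : Det d.p d.L d.c
  thW : Det d.p d.W d.th
  sfW : Det d.p (fun ω => (d.W ω, d.sh ω)) d.sf
  NW : Det d.p (fun ω => (d.L ω, (d.W ω, d.sh ω))) d.N
  th01 : ∀ ω, 0 < d.p ω → 0 ≤ d.th ω ∧ d.th ω < 1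
  y01 : ∀ ω, 0 < d.p ω → ∀ j, 0 ≤ d.y ω j ∧ d.y ω j < 2 ^ d.X
  shb : ∀ ω, 0 < d.p ω → ∀ al, |(d.sh ω al : ℝ)| ≤ B * 2 ^ d.X
  idn : ∀ ω ω', 0 < d.p ω → 0 < d.p ω' → d.L ω = d.L ω' →
    |((d.N ω' : ℝ) - d.N ω) - (∑ a : Fin n,
      (d.th ω' ^ (a.val + 1) - d.th ω ^ (a.val + 1)) * (d.c ω a : ℝ) -
        2 ^ d.X * (d.sf ω' - d.sf ω) - (d.shv (d.sh ω') (d.y ω) - d.shv (d.sh ω) (d.y ω)))| ≤ E

/-- The time variables and the shape. -/
def T (ω : d.Om) : d.Tau × (Mon k K → ℤ) := (d.W ω, d.sh ω)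

/-- The numbers of the line are bounded. -/
def Gl (ω : d.Om) : Prop := ∀ a, |((d.c ω a : ℤ) : ℝ)| ≤ 2 ^ d.X

/-- The context and the event of the good lines. -/
def gx (ω : d.Om) : d.Bx × Prop := (d.bx ω, d.Gl ω)

/-- The data of lemma L1 for the law `p'`. -/
noncomputable def ld (p' : d.Om → ℝ) : LDat k n (Mon k K) where
  Om := d.Om
  Lam := d.Lam
  Tau := d.Tau × (Mon k K → ℤ)
  P := p'
  L := d.L
  T := d.T
  y := fac p' d.L d.y 0
  c := fac p' d.L d.c 0
  N := d.N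
  th := fac d.p d.T d.th 0
  s := fac d.p d.T d.sf 0
  co := fac d.p d.T (fun ω al => (d.sh ω al : ℝ) / 2 ^ d.X) 0
  X := d.X

variable {d}

theorem Det.of_sub {Ω S T : Type} {p p' : Ω → ℝ} (h : ∀ ω, 0 < p' ω → 0 < p ω) {X : Ω → S}
    {Y : Ω → T} (hd : Det p X Y) : Det p' X Y := fun ω ω' a b e => hd ω ω' (h ω a) (h ω' b) e

section sub

variable {E B : ℝ} (hd : d.OK E B) {p' : d.Om → ℝ} (hsub : ∀ ω, 0 < p' ω → 0 < d.p ω)

include hd

theorem th_eq {ω : d.Om} (hω : 0 < d.p ω) : (d.ld p').th (d.T ω) = d.th ω :=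
  fac_eq (fun ω ω' h h' e => hd.thW ω ω' h h' (Prod.ext_iff.1 e).1) hω

theorem s_eq {ω : d.Om} (hω : 0 < d.p ω) : (d.ld p').s (d.T ω) = d.sf ω :=
  fac_eq (fun ω ω' h h' e => hd.sfW ω ω' h h' e) hω

omit hd in
theorem co_eq {ω : d.Om} (hω : 0 < d.p ω) (al : Mon k K) :
    (d.ld p').co (d.T ω) al = (d.sh ω al : ℝ) / 2 ^ d.X := by
  have h : fac d.p d.T (fun ω al => (d.sh ω al : ℝ) / 2 ^ d.X) 0 (d.T ω) =
      fun al => (d.sh ω al : ℝ) / 2 ^ d.X :=
    fac_eq (g := fun ω al => (d.sh ω al : ℝ) / 2 ^ d.X) (fun ω ω' _ _ e => by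
      have e1 : d.sh ω = d.sh ω' := (Prod.ext_iff.1 e).2
      rw [e1]) hω
  exact congrFun h al

include hsub

theorem y_eq {ω : d.Om} (hω : 0 < p' ω) : (d.ld p').y (d.L ω) = d.y ω :=
  fac_eq (fun ω ω' h h' e => hd.yL ω ω' (hsub ω h) (hsub ω' h') e) hω

theorem c_eq {ω : d.Om} (hω : 0 < p' ω) : (d.ld p').c (d.L ω) = d.c ω :=
  fac_eq (fun ω ω' h h' e => hd.cL ω ω' (hsub ω h) (hsub ω' h') e) hω

theorem ld_ok (hp' : IsLaw p') (hg : ∀ ω, 0 < p' ω → d.Gl ω) {A : ℕ} {c : ℝ}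
    (hE : E ≤ 2 ^ A) (hB : B ≤ (2 : ℝ) ^ c) (b : Bas k (Mon k K))
    (hb : ∀ i, b.g i = mono (i : Fin k → ℕ)) : (d.ld p').OK b A c := by
  have hXp : (0 : ℝ) < 2 ^ d.X := by positivity
  refine ⟨hp', ?_, ?_, ?_, ?_, ?_, ?_⟩
  · intro l j
    have h1 : ∀ j, |((fac p' d.L d.y 0 l j : ℤ) : ℝ) / 2 ^ d.X| ≤ 1 := by
      refine fac_mem (Q := fun v : Fin k → ℤ => ∀ j, |((v j : ℤ) : ℝ) / 2 ^ d.X| ≤ 1)
        (fun j => by simp) (fun ω hω j => ?_) l
      obtain ⟨h2, h3⟩ := hd.y01 ω (hsub ω hω) j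
      have h4 : (0 : ℝ) ≤ d.y ω j := by exact_mod_cast h2
      have h5 : (d.y ω j : ℝ) ≤ 2 ^ d.X := by
        have : (d.y ω j : ℝ) < ((2 ^ d.X : ℤ) : ℝ) := by exact_mod_cast h3
        push_cast at this
        exact this.le
      rw [abs_of_nonneg (by positivity), div_le_one hXp]
      exact h5
    exact h1 j
  · intro l a
    have h1 : ∀ a, |((fac p' d.L d.c 0 l a : ℤ) : ℝ) / 2 ^ d.X| ≤ 1 := by
      refine fac_mem (Q := fun v : Fin n → ℤ => ∀ a, |((v a : ℤ) : ℝ) / 2 ^ d.X| ≤ 1)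
        (fun a => by simp) (fun ω hω a => ?_) l
      rw [abs_div, abs_of_pos hXp, div_le_one hXp]
      exact hg ω hω a
    exact h1 a
  · intro ω ω' h h' e
    exact hd.NW ω ω' (hsub ω h) (hsub ω' h') e
  · intro t
    exact fac_mem (Q := fun x : ℝ => 0 ≤ x ∧ x < 1) ⟨le_rfl, one_pos⟩
      (fun ω hω => hd.th01 ω hω) t
  · intro t al
    have h1 : ∀ al, |fac d.p d.T (fun ω al => (d.sh ω al : ℝ) / 2 ^ d.X) 0 t al| ≤ (2 : ℝ) ^ c := by
      refine fac_mem (Q := fun v : Mon k K → ℝ => ∀ al, |v al| ≤ (2 : ℝ) ^ c)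
        (fun al => by
          rw [Pi.zero_apply, abs_zero]
          positivity) (fun ω hω al => ?_) t
      rw [abs_div, abs_of_pos hXp, div_le_iff₀ hXp]
      exact (hd.shb ω hω al).trans (mul_le_mul_of_nonneg_right hB hXp.le)
    exact h1 al
  · intro ω ω' h h' e
    have k1 := hsub ω h
    have k2 := hsub ω' h'
    change |((d.N ω' : ℝ) - d.N ω) - 2 ^ d.X * (d.ld p').Z b (d.T ω) (d.T ω')
      ((d.ld p').y (d.L ω), (d.ld p').c (d.L ω))| ≤ 2 ^ A
    rw [y_eq hd hsub h, c_eq hd hsub h]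
    refine le_trans (le_of_eq ?_) ((hd.idn ω ω' k1 k2 e).trans hE)
    congr 1
    congr 1
    unfold LDat.Z pol
    rw [th_eq hd k1, th_eq hd k2, s_eq hd k1, s_eq hd k2]
    simp only [co_eq k1, co_eq k2, hb]
    rw [mul_sub, mul_sub]
    congr 1
    · congr 1
      rw [Finset.mul_sum]
      refine Finset.sum_congr rfl fun a _ => ?_
      change 2 ^ d.X * ((d.th ω' ^ (a.val + 1) - d.th ω ^ (a.val + 1)) *
        ((d.c ω a : ℝ) / 2 ^ d.X)) = _
      field_simp
    · unfold shv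
      rw [mul_sub, Finset.mul_sum, Finset.mul_sum]
      congr 1 <;>
      · refine Finset.sum_congr rfl fun al _ => ?_
        field_simp
        rfl

end sub

end CDat

end Pool.L1B
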