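import Pool.Agent.H35.L1B.Core
import Pool.Agent.H29.L1L.Nodes
import Pool.Agent.H83.OCG.OCB

/-!
# The abstract core for arbitrary time laws

Nothing is assumed about the entropy of the time: two samples of one line are not nearer than
`2 ^ (-k')`, and the same in the mean over the scales in the windows of the scale. The constants
`κ₂, κ, ι₃, εT` are chosen before `k'`.
-/

set_option autoImplicit false

namespace Pool.L1B

open Finset Real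
open Pool.Agent.H49.Ent Pool.Agent.H32.Dense Pool.STK Pool.KAF Pool.M5 Pool.SLO
open Pool.OCG (nr kp tl)

/-- Two copies given equivalent variables. -/
theorem dbl_det {Ω S S' : Type} [Fintype Ω] {p : Ω → ℝ} (hp : ∀ ω, 0 ≤ p ω) {κ : Ω → S}
    {κ' : Ω → S'} (h : Det p κ κ') (h' : Det p κ' κ) : dbl p κ = dbl p κ' := by
  classical
  funext w
  unfold dbl glue
  rcases (hp w.1).eq_or_lt with h0 | h0
  · rw [← h0]
    simp
  rcases (hp w.2).eq_or_lt with h0' | h0'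
  · rw [← h0']
    simp
  by_cases h1 : κ w.1 = κ w.2
  · have h2 : law p κ (κ w.1) = law p κ' (κ' w.1) := by
      unfold law
      refine Finset.sum_congr rfl fun ω _ => ?_
      rcases (hp ω).eq_or_lt with h3 | h3
      · rw [← h3]
        simp
      · by_cases h4 : κ ω = κ w.1
        · rw [if_pos h4, if_pos (h ω w.1 h3 h0 h4)]
        · rw [if_neg h4, if_neg (fun h5 => h4 (h' ω w.1 h3 h0 h5))]
    rw [if_pos h1, if_pos (h w.1 w.2 h0 h0' h1), h2]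
  · rw [if_neg h1, if_neg (fun h4 => h1 (h' w.1 w.2 h0 h0' h4))]

/-- The mean over the values of a function of the line. -/
theorem Ex_nr_det {Ω Λ β : Type} [Fintype Ω] {p : Ω → ℝ} (hp : ∀ ω, 0 ≤ p ω) {L : Ω → Λ}
    {g : Ω → β} (hg : Det p L g) (θ : Ω → ℝ) (k' i : ℕ) :
    Ex p (fun ω => nr (Pool.Agent.H49.Ent.cond p g (g ω)) L θ k' i) = nr p L θ k' i := by
  rw [Pool.OCG.Ex_nr hp]
  unfold nr
  rw [dbl_det (κ := kp (fun ω => (L ω, g ω)) θ i) (κ' := kp L θ i) hp]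
  · intro ω ω' _ _ e
    unfold kp at e ⊢
    simp only [Prod.mk.injEq] at e ⊢
    exact ⟨e.1.1, e.2⟩
  · intro ω ω' a a' e
    unfold kp at e ⊢
    simp only [Prod.mk.injEq] at e ⊢
    exact ⟨⟨e.1, hg ω ω' a a' e.1⟩, e.2⟩

variable {k n K : ℕ}

namespace CDat

/-- **The abstract core for arbitrary time laws.** -/
theorem acoreL (k n K : ℕ) (E : ℝ) {c ε : ℝ} (hc : 0 < c) (hε : 0 < ε) :
    ∃ κ₂ κ ι₃ εT : ℝ, 0 < κ₂ ∧ 0 < κ ∧ κ ≤ 1 ∧ 0 < ι₃ ∧ 0 < εT ∧ ∀ k' : ℕ,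
      ∃ (π₀ ι C₁ : ℝ) (X₀ : ℕ), 0 < π₀ ∧ 0 < ι ∧
      ∀ (d : CDat k n K) (B : ℝ), d.OK E B → X₀ ≤ d.X → 0 ≤ B → B ≤ (2 : ℝ) ^ (ι₃ * d.X) →
      d.Av c κ π₀ ι ι₃ → nr d.p d.L d.th k' 0 ≤ εT →
      ∑ i ∈ range d.X, nr d.p d.L d.th k' i ≤ εT * d.X →
      ∃ Rr : d.Lam → Fin (n + 1) → Mon k K → ℝ, (∀ l i al, |Rr l i al| ≤ C₁ * B) ∧
        Pr d.p {ω | ∃ al, (2 : ℝ) ^ (-(κ₂ * d.X)) < |(d.sh ω al : ℝ) / 2 ^ d.X -
          ∑ i, Rr (d.L ω) i al * d.th ω ^ (i : ℕ)|} ≤ ε := by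
  classical
  obtain ⟨b, hb1, hb2⟩ := Pool.Agent.H1.M5.tay_thm k K
  obtain ⟨A, hA⟩ := pow_unbounded_of_one_lt E (one_lt_two : (1 : ℝ) < 2)
  have hl2 : 0 < Real.log 2 := Real.log_pos one_lt_two
  set c₁ : ℝ := min (c / 2) (1 / 2) with hc₁
  have hc₁0 : 0 < c₁ := lt_min (by positivity) (by norm_num)
  have hc₁c : c₁ < c := (min_le_left _ _).trans_lt (by linarith)
  have hc₁1 : c₁ < 1 := (min_le_right _ _).trans_lt (by norm_num)
  obtain ⟨κ₂, κ, ι₃, εT, a1, a2, a3, a5, a6, hL⟩ :=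
    Pool.M5L.l1wl_thm k n K A b c₁ (ε / 4) hb1 hb2 hc₁0 (by positivity)
  refine ⟨κ₂, κ / 2, min ι₃ (ε / 2 * ι₃ / 16), ε / 8 * εT, a1, by positivity, by linarith,
    lt_min a5 (by positivity), by positivity, fun k' => ?_⟩
  obtain ⟨π₁, ι₁, X₁, a7, a4, hL⟩ := hL k'
  obtain ⟨π₀, ι, X₂, b1, b2, hC⟩ := ctx_thm k n K b hb1 (E := E) A hA.le
    (c := c) (c₁ := c₁) (κ := κ) (η := ε / 2) (ι₃ := ι₃) (π₁ := π₁) (ι₁ := ι₁) hc₁c hc₁1 a2
    (by positivity) a5 a7 a4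
  refine ⟨π₀, ι, (n + 1) * 2 ^ (n + k' * n), max X₁ (max X₂ 1), b1, b2, ?_⟩
  intro d B hd hX hB hBX hav hT1 hT2
  have hp := hd.law
  have hp0 := hp.nonneg
  have hX1 : X₁ ≤ d.X := (le_max_left _ _).trans hX
  have hX2 : X₂ ≤ d.X := ((le_max_left _ _).trans (le_max_right _ _)).trans hX
  have hXpos : (0 : ℝ) < d.X := by
    have : 1 ≤ d.X := ((le_max_right _ _).trans (le_max_right _ _)).trans hX
    exact_mod_cast this
  have hBX' : B ≤ (2 : ℝ) ^ (ι₃ * d.X) :=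
    hBX.trans (Real.rpow_le_rpow_of_exponent_le (by norm_num)
      (mul_le_mul_of_nonneg_right (min_le_left _ _) hXpos.le))
  have hav' : d.Av c (κ / 2) π₀ ι (ε / 2 * ι₃ / 16) := by
    refine ⟨hav.hl, hav.h1, hav.h1s, hav.h2, le_trans ?_ hav.h3, hav.h5⟩
    refine mul_le_mul_of_nonneg_right (mul_le_mul_of_nonneg_right ?_ hXpos.le) hl2.le
    have := min_le_right ι₃ (ε / 2 * ι₃ / 16)
    linarith
  have hLg : Det d.p d.L d.gx := fun ω ω' a a' e => by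
    unfold gx Gl
    rw [hd.bxL ω ω' a a' e, hd.cL ω ω' a a' e]
  have htb : ∀ p' : d.Om → ℝ, IsLaw p' → (∀ ω, 0 < p' ω → 0 < d.p ω) →
      CH p' (fun _ => (0 : ℤ)) d.L ≤ 0 := fun p' hp' _ =>
    (CH_eq_zero hp'.nonneg fun _ _ _ _ _ => rfl).le
  have hctx := hC d B hd hX2 hBX' hav' (fun _ => 0) (fun _ => 0) 0 0 0 0 1 1 one_pos one_pos
    htb htb (by
      rw [sub_zero]
      exact CH_nonneg hp0 _ _) (by
      rw [sub_zero]
      exact CH_nonneg hp0 _ _)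
  set F1 : d.Bx × Prop → ℝ := fun z => nr (Pool.Agent.H49.Ent.cond d.p d.gx z) d.L d.th k' 0
    with hF1
  set F2 : d.Bx × Prop → ℝ := fun z =>
    ∑ i ∈ range d.X, nr (Pool.Agent.H49.Ent.cond d.p d.gx z) d.L d.th k' i with hF2
  have hcl : ∀ z, 0 < law d.p d.gx z → IsLaw (Pool.Agent.H49.Ent.cond d.p d.gx z) := fun z hz =>
    ⟨fun v => cond_nonneg hp0 d.gx _ v, sum_cond d.p d.gx hz.ne'⟩
  have hE1 : Ex d.p (fun ω => F1 (d.gx ω)) ≤ ε / 8 * εT := by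
    rw [hF1]
    exact (Ex_nr_det hp0 hLg d.th k' 0).le.trans hT1
  have hE2 : Ex d.p (fun ω => F2 (d.gx ω)) ≤ ε / 8 * εT * d.X := by
    have e1 : Ex d.p (fun ω => F2 (d.gx ω)) = ∑ i ∈ range d.X, Ex d.p (fun ω =>
        nr (Pool.Agent.H49.Ent.cond d.p d.gx (d.gx ω)) d.L d.th k' i) := by
      rw [hF2]
      unfold Ex
      rw [Finset.sum_comm]
      refine Finset.sum_congr rfl fun ω _ => ?_
      rw [Finset.mul_sum]
    rw [e1]
    refine le_trans (le_of_eq ?_) hT2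
    exact Finset.sum_congr rfl fun i _ => Ex_nr_det hp0 hLg d.th k' i
  have m1 := Pool.M5T.Pr_gt hp0 (fun ω => F1 (d.gx ω))
    (fun ω hω => Pool.OCG.nr_nonneg (hcl _ (law_pos hp0 d.gx hω)).nonneg _ _ _ _) a6 hE1
  have m2 := Pool.M5T.Pr_gt hp0 (fun ω => F2 (d.gx ω))
    (fun ω hω => Finset.sum_nonneg fun i _ =>
      Pool.OCG.nr_nonneg (hcl _ (law_pos hp0 d.gx hω)).nonneg _ _ _ _)
    (a := εT * d.X) (by positivity) hE2
  set bad : Set (d.Bx × Prop) := {z | ¬ (d.Gd b A c₁ κ π₁ ι₁ ι₃ z ∧ F1 z ≤ εT ∧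
    F2 z ≤ εT * d.X)} with hbad
  have hQ := mix_thm hd k' (κ₂ := κ₂) (ε := ε / 4) (by positivity) bad (fun z hz hzb => by
    obtain ⟨⟨g1, g2, g3, g4, g5⟩, g6, g7⟩ := not_not.1 hzb
    have hs' : ∀ ω', 0 < Pool.Agent.H49.Ent.cond d.p d.gx z ω' → 0 < d.p ω' :=
        fun ω' h' => ((cond_pos_iff hp0 d.gx _ ω').1 h').1
    have hp' := hcl z hz
    have eth : ∀ ω, 0 < Pool.Agent.H49.Ent.cond d.p d.gx z ω →
        (d.ld (Pool.Agent.H49.Ent.cond d.p d.gx z)).th (d.T ω) = d.th ω :=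
      fun ω hω => th_eq hd (hs' ω hω)
    have e : ∀ i : ℕ, nr (Pool.Agent.H49.Ent.cond d.p d.gx z) d.L
        (fun ω => (d.ld (Pool.Agent.H49.Ent.cond d.p d.gx z)).th (d.T ω)) k' i =
        nr (Pool.Agent.H49.Ent.cond d.p d.gx z) d.L d.th k' i := fun i =>
      Pool.OCG.nr_congr hp'.nonneg d.L eth k' i
    refine hL (d.ld (Pool.Agent.H49.Ent.cond d.p d.gx z)) g1 hX1 g2 ?_ ?_ g3 g4 g5
    · have h8 := g6
      rw [hF1] at h8
      simp only at h8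
      rw [← e] at h8
      unfold nr at h8
      have h9 : ((0 : ℕ) : ℤ) + (k' : ℤ) = k' := by simp
      rw [h9] at h8
      exact h8
    · refine le_trans (le_of_eq ?_) g7
      exact Finset.sum_congr rfl fun i _ => e i)
  refine fin_thm hd hB k' (hQ.trans ?_)
  have h1 : Pr d.p {ω | d.gx ω ∈ bad} ≤ ε / 2 / 2 + ε / 8 * εT / εT +
      ε / 8 * εT * d.X / (εT * d.X) := by
    have u1 := Pool.M5T.Pr_or (p := d.p) hp0 (A := {ω | d.gx ω ∈ bad})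
      (B := {ω | ¬ (d.Gd b A c₁ κ π₁ ι₁ ι₃ (d.gx ω) ∧
        0 - 1 ≤ CH (Pool.Agent.H49.Ent.cond d.p d.gx (d.gx ω)) (fun _ => (0 : ℤ)) d.L ∧
        0 - 1 ≤ CH (Pool.Agent.H49.Ent.cond d.p d.gx (d.gx ω)) (fun _ => (0 : ℤ)) d.L)})
      (C := {ω | εT < F1 (d.gx ω) ∨ εT * d.X < F2 (d.gx ω)}) (by
        intro ω hω h
        by_cases h2 : d.Gd b A c₁ κ π₁ ι₁ ι₃ (d.gx ω)
        · right
          by_contra hcon
          rw [Set.mem_ofPred_eq, not_or, not_lt, not_lt] at hcon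
          exact h ⟨h2, hcon.1, hcon.2⟩
        · exact Or.inl fun h3 => h2 h3.1)
    have u2 := Pool.M5T.Pr_or (p := d.p) hp0
      (A := {ω | εT < F1 (d.gx ω) ∨ εT * d.X < F2 (d.gx ω)})
      (B := {ω | εT < F1 (d.gx ω)}) (C := {ω | εT * d.X < F2 (d.gx ω)})
      (fun ω _ h => h)
    have h3 : ε / 2 / 2 + (0 : ℝ) / 1 + 0 / 1 = ε / 2 / 2 := by ring
    rw [h3] at hctx
    have u3 := u1.trans (add_le_add hctx (u2.trans (add_le_add m1 m2)))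
    linarith
  have h2 : ε / 8 * εT / εT = ε / 8 := by field_simp
  have h3 : ε / 8 * εT * d.X / (εT * d.X) = ε / 8 := by field_simp
  rw [h2, h3] at h1
  linarith

end CDat

end Pool.L1B
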